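import Mathlib

namespace Pool.Agent.Results.MP_671173_al.NotPolynomial

open Finset

set_option linter.unusedSimpArgs false
set_option linter.unusedSectionVars false

/-- The largest size of a non-commuting subset (`sSup` of a bounded set of naturals for finite `G`). -/
noncomputable def ncNumber (G : Type*) [Mul G] : ℕ :=
  sSup {n : ℕ | ∃ X : Finset G, X.card = n ∧ ∀ x ∈ X, ∀ y ∈ X, x ≠ y → x * y ≠ y * x}

/-- The `4 × 4` upper-triangular matrices over `F` with all diagonal entries `1`,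
under matrix multiplication. -/
def UU4 (F : Type*) [Field F] : Submonoid (Matrix (Fin 4) (Fin 4) F) where
  carrier := {M | (∀ i, M i i = 1) ∧ ∀ i j, j < i → M i j = 0}
  one_mem' := ⟨fun i => by simp, fun i j h => by simp [h.ne']⟩
  mul_mem' := by
    rintro M N ⟨hM1, hM2⟩ ⟨hN1, hN2⟩
    refine ⟨?_, ?_⟩
    · intro i
      rw [Matrix.mul_apply, Finset.sum_eq_single i]
      · rw [hM1, hN1, one_mul]
      · intro j _ hj
        rcases lt_or_gt_of_ne hj with h | h
        · rw [hM2 i j h, zero_mul]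
        · rw [hN2 j i h, mul_zero]
      · simp
    · intro i j h
      rw [Matrix.mul_apply]
      apply Finset.sum_eq_zero
      intro k _
      rcases lt_or_ge k i with h1 | h1
      · rw [hM2 i k h1, zero_mul]
      · rw [hN2 k j (lt_of_lt_of_le h h1), mul_zero]

/-- Coordinates modulo the centre. -/
structure T (F : Type*) where
  a : F
  b : F
  c : F
  d : F
  e : F

variable {F : Type*} [Field F]

/-- The commutation relation in coordinates. -/
def C (s t : T F) : Prop :=
  s.a * t.b = t.a * s.b ∧ s.b * t.c = t.b * s.c ∧ s.a * t.e + s.d * t.c = t.a * s.e + t.d * s.c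

def toT (M : UU4 F) : T F := ⟨M.1 0 1, M.1 1 2, M.1 2 3, M.1 0 2, M.1 1 3⟩

theorem comm_matrix (M N : Matrix (Fin 4) (Fin 4) F) (hM1 : ∀ i, M i i = 1)
    (hM2 : ∀ i j, j < i → M i j = 0) (hN1 : ∀ i, N i i = 1) (hN2 : ∀ i j, j < i → N i j = 0) :
    M * N = N * M ↔ (M 0 1 * N 1 2 = N 0 1 * M 1 2 ∧ M 1 2 * N 2 3 = N 1 2 * M 2 3 ∧
      M 0 1 * N 1 3 + M 0 2 * N 2 3 = N 0 1 * M 1 3 + N 0 2 * M 2 3) := by
  have h10 := hM2 1 0 (by decide)
  have h20 := hM2 2 0 (by decide)
  have h30 := hM2 3 0 (by decide)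
  have h21 := hM2 2 1 (by decide)
  have h31 := hM2 3 1 (by decide)
  have h32 := hM2 3 2 (by decide)
  have g10 := hN2 1 0 (by decide)
  have g20 := hN2 2 0 (by decide)
  have g30 := hN2 3 0 (by decide)
  have g21 := hN2 2 1 (by decide)
  have g31 := hN2 3 1 (by decide)
  have g32 := hN2 3 2 (by decide)
  constructor
  · intro h
    have e1 := congrFun (congrFun h 0) 2
    have e2 := congrFun (congrFun h 1) 3
    have e3 := congrFun (congrFun h 0) 3
    simp only [Matrix.mul_apply, Fin.sum_univ_four, hM1, hN1, h10, h20, h30, h21, h31, h32,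
      g10, g20, g30, g21, g31, g32, one_mul, mul_one, zero_mul, mul_zero, add_zero, zero_add]
      at e1 e2 e3
    refine ⟨by linear_combination e1, by linear_combination e2, by linear_combination e3⟩
  · rintro ⟨e1, e2, e3⟩
    ext i j
    fin_cases i <;> fin_cases j <;>
      simp only [Matrix.mul_apply, Fin.sum_univ_four, hM1, hN1, h10, h20, h30, h21, h31, h32,
      g10, g20, g30, g21, g31, g32, one_mul, mul_one, zero_mul, mul_zero, add_zero, zero_add,
      Fin.mk_zero, Fin.mk_one, Fin.reduceFinMk, Fin.zero_eta, Fin.isValue] <;>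
      first
      | ring1
      | linear_combination e1
      | linear_combination e2
      | linear_combination e3

theorem comm_iff (M N : UU4 F) : M * N = N * M ↔ C (toT M) (toT N) := by
  rw [Subtype.ext_iff, Submonoid.coe_mul, Submonoid.coe_mul]
  exact comm_matrix M.1 N.1 M.2.1 M.2.2 N.2.1 N.2.2

def ofT (t : T F) : UU4 F :=
  ⟨!![1, t.a, t.d, 0; 0, 1, t.b, t.e; 0, 0, 1, t.c; 0, 0, 0, 1], by
    refine ⟨?_, ?_⟩
    · intro i; fin_cases i <;> rfl
    · intro i j h
      fin_cases i <;> fin_cases j <;> first | rfl | exact absurd h (by decide)⟩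

theorem toT_ofT (t : T F) : toT (ofT t) = t := by
  cases t; rfl

theorem C_self (t : T F) : C t t := ⟨by ring, by ring, by ring⟩

theorem C_symm {s t : T F} (h : C s t) : C t s := ⟨h.1.symm, h.2.1.symm, h.2.2.symm⟩

/-! ### General facts about `ncNumber` -/

theorem ncNumber_le {G : Type*} [Mul G] {n : ℕ}
    (h : ∀ X : Finset G, (∀ x ∈ X, ∀ y ∈ X, x ≠ y → x * y ≠ y * x) → X.card ≤ n) :
    ncNumber G ≤ n := by
  unfold ncNumber
  apply csSup_le'
  rintro m ⟨X, rfl, hX⟩
  exact h X hX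

theorem le_ncNumber {G : Type*} [Mul G] [Finite G] (X : Finset G)
    (hX : ∀ x ∈ X, ∀ y ∈ X, x ≠ y → x * y ≠ y * x) : X.card ≤ ncNumber G := by
  unfold ncNumber
  have : Fintype G := Fintype.ofFinite G
  apply le_csSup
  · refine ⟨Fintype.card G, ?_⟩
    rintro m ⟨Y, rfl, _⟩
    exact Y.card_le_univ
  · exact ⟨X, rfl, hX⟩

/-! ### The part `b = 0`: partial ovoids of the symplectic space -/

section ovoid

variable [Fintype F] [DecidableEq F]

/-- The points `(x, y, z)` of affine 3-space attached to a vector. -/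
def S (t : T F) : Finset (F × F × F) :=
  univ.filter fun p => t.e = p.1 * t.a + p.2.1 * t.c ∧ t.d = -(p.2.1 * t.a) + p.2.2 * t.c

theorem mem_S {t : T F} {x y z : F} :
    (x, y, z) ∈ S t ↔ t.e = x * t.a + y * t.c ∧ t.d = -(y * t.a) + z * t.c := by
  simp [S]

def Normal (t : T F) : Prop := t.b = 0 ∧ (t.a = 1 ∨ (t.a = 0 ∧ t.c = 1))

theorem card_S {t : T F} (ht : Normal t) : (S t).card = Fintype.card F := by
  rw [← Finset.card_univ]
  rcases ht with ⟨_, h | ⟨h, h'⟩⟩
  · symm
    apply Finset.card_nbij' (fun z => (t.e - (z * t.c - t.d) * t.c, z * t.c - t.d, z))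
      (fun p => p.2.2)
    · intro z _
      simp only [Finset.mem_coe, mem_S, h]
      exact ⟨by ring, by ring⟩
    · intro p _; simp
    · intro z _; rfl
    · rintro ⟨x, y, z⟩ hp
      simp only [Finset.mem_coe, mem_S, h] at hp
      obtain ⟨h1, h2⟩ := hp
      have hy : y = z * t.c - t.d := by rw [h2]; ring
      have hx : x = t.e - y * t.c := by rw [h1]; ring
      simp only [Prod.mk.injEq, and_true]
      exact ⟨by rw [hx, hy], hy.symm⟩
  · symm
    apply Finset.card_nbij' (fun x => (x, t.e, t.d)) (fun p => p.1)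
    · intro z _
      simp only [Finset.mem_coe, mem_S, h, h']
      exact ⟨by ring, by ring⟩
    · intro p _; simp
    · intro z _; rfl
    · rintro ⟨x, y, z⟩ hp
      simp only [Finset.mem_coe, mem_S, h, h'] at hp
      obtain ⟨h1, h2⟩ := hp
      simp only [Prod.mk.injEq, true_and]
      exact ⟨by rw [h1]; ring, by rw [h2]; ring⟩

theorem S_disj {s t : T F} (hs : s.b = 0) (ht : t.b = 0) (h : ¬ C s t) :
    Disjoint (S s) (S t) := by
  rw [Finset.disjoint_left]
  rintro ⟨x, y, z⟩ h1 h2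
  rw [mem_S] at h1 h2
  apply h
  refine ⟨by rw [hs, ht]; ring, by rw [hs, ht]; ring, ?_⟩
  rw [h1.1, h1.2, h2.1, h2.2]; ring

/-- The plane `φ = l`. -/
def Pl (a1 c1 a2 c2 l : F) : Finset (F × F × F) :=
  univ.filter fun p => a1 * a2 * p.1 + (c1 * a2 + a1 * c2) * p.2.1 - c1 * c2 * p.2.2 = l

theorem mem_Pl {a1 c1 a2 c2 l x y z : F} : (x, y, z) ∈ Pl a1 c1 a2 c2 l ↔
    a1 * a2 * x + (c1 * a2 + a1 * c2) * y - c1 * c2 * z = l := by
  simp [Pl]

theorem card_Pl {a1 c1 a2 c2 : F} (l : F) (h1 : a1 = 1 ∨ (a1 = 0 ∧ c1 = 1))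
    (h2 : a2 = 1 ∨ (a2 = 0 ∧ c2 = 1)) : (Pl a1 c1 a2 c2 l).card = Fintype.card F ^ 2 := by
  have hc : (univ : Finset (F × F)).card = Fintype.card F ^ 2 := by
    rw [Finset.card_univ, Fintype.card_prod, sq]
  rw [← hc]
  symm
  rcases h1 with rfl | ⟨rfl, rfl⟩
  · rcases h2 with rfl | ⟨rfl, rfl⟩
    · apply Finset.card_nbij' (fun p => (l - (c1 + c2) * p.1 + c1 * c2 * p.2, p.1, p.2))
        (fun p => (p.2.1, p.2.2))
      · intro z _
        simp only [Finset.mem_coe, mem_Pl]; ring
      · intro p _; simp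
      · intro z _; rfl
      · rintro ⟨x, y, z⟩ hp
        simp only [Finset.mem_coe, mem_Pl] at hp
        simp only [Prod.mk.injEq, and_true]
        rw [← hp]; ring
    · apply Finset.card_nbij' (fun p => (p.1, l + c1 * p.2, p.2)) (fun p => (p.1, p.2.2))
      · intro z _
        simp only [Finset.mem_coe, mem_Pl]; ring
      · intro p _; simp
      · intro z _; rfl
      · rintro ⟨x, y, z⟩ hp
        simp only [Finset.mem_coe, mem_Pl] at hp
        simp only [Prod.mk.injEq, and_true, true_and]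
        rw [← hp]; ring
  · rcases h2 with rfl | ⟨rfl, rfl⟩
    · apply Finset.card_nbij' (fun p => (p.1, l + c2 * p.2, p.2)) (fun p => (p.1, p.2.2))
      · intro z _
        simp only [Finset.mem_coe, mem_Pl]; ring
      · intro p _; simp
      · intro z _; rfl
      · rintro ⟨x, y, z⟩ hp
        simp only [Finset.mem_coe, mem_Pl] at hp
        simp only [Prod.mk.injEq, and_true, true_and]
        rw [← hp]; ring
    · apply Finset.card_nbij' (fun p => (p.1, p.2, -l)) (fun p => (p.1, p.2.1))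
      · intro z _
        simp only [Finset.mem_coe, mem_Pl]; ring
      · intro p _; simp
      · intro z _; rfl
      · rintro ⟨x, y, z⟩ hp
        simp only [Finset.mem_coe, mem_Pl] at hp
        simp only [Prod.mk.injEq, true_and]
        rw [← hp]; ring

/-- A line in general position meets the plane in one point. -/
theorem card_inter_one {t : T F} (ht : Normal t) {a1 c1 a2 c2 : F} (l : F)
    (h1 : a1 * t.c - c1 * t.a ≠ 0) (h2 : a2 * t.c - c2 * t.a ≠ 0) :
    (S t ∩ Pl a1 c1 a2 c2 l).card = 1 := by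
  rw [Finset.card_eq_one]
  rcases ht with ⟨_, h | ⟨h, h'⟩⟩
  · rw [h] at h1 h2
    set k := (a1 * t.c - c1 * 1) * (a2 * t.c - c2 * 1) with hk
    have hk0 : k ≠ 0 := mul_ne_zero h1 h2
    set z0 := (a1 * a2 * (t.e + t.d * t.c) - (c1 * a2 + a1 * c2) * t.d - l) / k with hz0
    have hz : k * z0 = a1 * a2 * (t.e + t.d * t.c) - (c1 * a2 + a1 * c2) * t.d - l := by
      rw [hz0]; field_simp
    refine ⟨(t.e - (z0 * t.c - t.d) * t.c, z0 * t.c - t.d, z0), ?_⟩
    ext ⟨x, y, z⟩
    simp only [Finset.mem_inter, mem_S, mem_Pl, Finset.mem_singleton, Prod.mk.injEq, h]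
    constructor
    · rintro ⟨⟨e1, e2⟩, e3⟩
      have hy : y = z * t.c - t.d := by rw [e2]; ring
      have hx : x = t.e - y * t.c := by rw [e1]; ring
      have hzz : z = z0 := by
        apply mul_left_cancel₀ hk0
        rw [hz, ← e3, hx, hy, hk]; ring
      subst hzz
      exact ⟨by rw [hx, hy], hy, rfl⟩
    · rintro ⟨rfl, rfl, rfl⟩
      refine ⟨⟨by ring, by ring⟩, ?_⟩
      have : l = a1 * a2 * (t.e + t.d * t.c) - (c1 * a2 + a1 * c2) * t.d - k * z0 := by
        rw [hz]; ring
      rw [this, hk]; ring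
  · rw [h, h'] at h1 h2
    have ha1 : a1 ≠ 0 := by intro h0; apply h1; rw [h0]; ring
    have ha2 : a2 ≠ 0 := by intro h0; apply h2; rw [h0]; ring
    refine ⟨((l - (c1 * a2 + a1 * c2) * t.e + c1 * c2 * t.d) / (a1 * a2), t.e, t.d), ?_⟩
    ext ⟨x, y, z⟩
    simp only [Finset.mem_inter, mem_S, mem_Pl, Finset.mem_singleton, Prod.mk.injEq, h, h']
    constructor
    · rintro ⟨⟨e1, e2⟩, e3⟩
      have hy : y = t.e := by rw [e1]; ring
      have hz : z = t.d := by rw [e2]; ring
      subst hy hz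
      refine ⟨?_, rfl, rfl⟩
      rw [eq_div_iff (mul_ne_zero ha1 ha2), ← e3]; ring
    · rintro ⟨rfl, rfl, rfl⟩
      refine ⟨⟨by ring, by ring⟩, ?_⟩
      field_simp; ring

theorem inter_par {t : T F} {a1 c1 a2 c2 : F} (l : F) (h1 : t.a = a1) (h2 : t.c = c1) :
    (S t ∩ Pl a1 c1 a2 c2 l) = if a2 * t.e - c2 * t.d = l then S t else ∅ := by
  split_ifs with h
  · rw [Finset.inter_eq_left]
    rintro ⟨x, y, z⟩ hp
    rw [mem_S] at hp
    rw [mem_Pl, ← h, hp.1, hp.2, h1, h2]; ring
  · rw [Finset.eq_empty_iff_forall_notMem]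
    rintro ⟨x, y, z⟩ hp
    rw [Finset.mem_inter, mem_S, mem_Pl] at hp
    apply h
    rw [← hp.2, hp.1.1, hp.1.2, h1, h2]; ring

theorem Pl_symm (a1 c1 a2 c2 l : F) : Pl a1 c1 a2 c2 l = Pl a2 c2 a1 c1 l := by
  ext ⟨x, y, z⟩
  rw [mem_Pl, mem_Pl]
  have : a1 * a2 * x + (c1 * a2 + a1 * c2) * y - c1 * c2 * z =
    a2 * a1 * x + (c2 * a1 + a2 * c1) * y - c2 * c1 * z := by ring
  rw [this]

end ovoid

section count

variable [Fintype F] [DecidableEq F]

structure Good (K : Finset (T F)) : Prop where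
  normal : ∀ t ∈ K, Normal t
  nc : ∀ s ∈ K, ∀ t ∈ K, s ≠ t → ¬ C s t

theorem Good.disj {K : Finset (T F)} (hK : Good K) : (K : Set (T F)).PairwiseDisjoint S := by
  intro s hs t ht hst
  exact S_disj (hK.normal s hs).1 (hK.normal t ht).1 (hK.nc s hs t ht hst)

theorem Good.card_biUnion {K : Finset (T F)} (hK : Good K) :
    (K.biUnion S).card = K.card * Fintype.card F := by
  rw [Finset.card_biUnion hK.disj, Finset.sum_congr rfl (fun t ht => card_S (hK.normal t ht)),
    Finset.sum_const, smul_eq_mul]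

theorem Good.card_le {K : Finset (T F)} (hK : Good K) : K.card ≤ Fintype.card F ^ 2 := by
  have h1 := Finset.card_le_univ (K.biUnion S)
  rw [hK.card_biUnion, Fintype.card_prod, Fintype.card_prod] at h1
  have hq : 0 < Fintype.card F := Fintype.card_pos
  apply Nat.le_of_mul_le_mul_right (c := Fintype.card F) _ hq
  calc K.card * Fintype.card F ≤ _ := h1
    _ = Fintype.card F ^ 2 * Fintype.card F := by ring

theorem Good.cover {K : Finset (T F)} (hK : Good K) (hc : K.card = Fintype.card F ^ 2) :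
    K.biUnion S = univ := by
  apply Finset.eq_univ_of_card
  rw [hK.card_biUnion, hc, Fintype.card_prod, Fintype.card_prod]; ring

theorem Good.card_plane {K : Finset (T F)} (hK : Good K) (hc : K.card = Fintype.card F ^ 2)
    (P : Finset (F × F × F)) : P.card = ∑ t ∈ K, (S t ∩ P).card := by
  have h1 : P = K.biUnion fun t => S t ∩ P := by
    ext p
    simp only [Finset.mem_biUnion, Finset.mem_inter]
    constructor
    · intro hp
      have : p ∈ K.biUnion S := by rw [hK.cover hc]; exact Finset.mem_univ p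
      obtain ⟨t, ht, hpt⟩ := Finset.mem_biUnion.1 this
      exact ⟨t, ht, hpt, hp⟩
    · rintro ⟨t, _, _, hp⟩; exact hp
  conv_lhs => rw [h1]
  apply Finset.card_biUnion
  intro s hs t ht hst
  exact (hK.disj hs ht hst).mono Finset.inter_subset_left Finset.inter_subset_left

theorem norm_par {a c a' c' : F} (h : a = 1 ∨ (a = 0 ∧ c = 1)) (h' : a' = 1 ∨ (a' = 0 ∧ c' = 1))
    (h0 : a * c' - c * a' = 0) : a' = a ∧ c' = c := by
  rcases h with rfl | ⟨rfl, rfl⟩ <;> rcases h' with rfl | ⟨rfl, rfl⟩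
  · exact ⟨rfl, by linear_combination h0⟩
  · exfalso; apply one_ne_zero (α := F); linear_combination h0
  · exfalso; apply one_ne_zero (α := F); linear_combination -h0
  · exact ⟨rfl, rfl⟩

/-- The elements of `K` in a given direction. -/
def Dir (K : Finset (T F)) (a c : F) : Finset (T F) := K.filter fun t => t.a = a ∧ t.c = c

theorem Good.tangent {K : Finset (T F)} (hK : Good K) (hc : K.card = Fintype.card F ^ 2)
    {a c : F} (h : a = 1 ∨ (a = 0 ∧ c = 1)) (l : F) :
    (Dir K a c).card = Fintype.card F * ((Dir K a c).filter fun t => a * t.e - c * t.d = l).card := by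
  have h1 := hK.card_plane hc (Pl a c a c l)
  rw [card_Pl l h h, ← Finset.sum_filter_add_sum_filter_not K (fun t => t.a = a ∧ t.c = c)] at h1
  have h2 : ∑ t ∈ K.filter (fun t => ¬ (t.a = a ∧ t.c = c)), (S t ∩ Pl a c a c l).card =
      (K.filter (fun t => ¬ (t.a = a ∧ t.c = c))).card := by
    rw [Finset.card_eq_sum_ones]
    apply Finset.sum_congr rfl
    intro t ht
    rw [Finset.mem_filter] at ht
    have hn := hK.normal t ht.1
    have : a * t.c - c * t.a ≠ 0 := fun h0 => ht.2 (norm_par h hn.2 h0)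
    exact card_inter_one hn l this this
  have h3 : ∑ t ∈ K.filter (fun t => t.a = a ∧ t.c = c), (S t ∩ Pl a c a c l).card =
      Fintype.card F * ((Dir K a c).filter fun t => a * t.e - c * t.d = l).card := by
    rw [Finset.card_filter, Finset.mul_sum]
    apply Finset.sum_congr rfl
    intro t ht
    rw [Finset.mem_filter] at ht
    rw [inter_par l ht.2.1 ht.2.2]
    split_ifs
    · rw [card_S (hK.normal t ht.1)]; ring
    · simp
  have h4 := Finset.card_filter_add_card_filter_not (s := K) (fun t => t.a = a ∧ t.c = c)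
  rw [h2, h3] at h1
  rw [← hc] at h1
  have h5 : (Dir K a c).card = (K.filter fun t => t.a = a ∧ t.c = c).card := rfl
  omega

theorem Good.dir_le_one {K : Finset (T F)} (hK : Good K) (a c l : F) :
    ((Dir K a c).filter fun t => a * t.e - c * t.d = l).card ≤ 1 := by
  rw [Finset.card_le_one]
  intro s hs t ht
  simp only [Dir, Finset.mem_filter] at hs ht
  by_contra hne
  apply hK.nc s hs.1.1 t ht.1.1 hne
  have hbs := (hK.normal s hs.1.1).1
  have hbt := (hK.normal t ht.1.1).1
  refine ⟨by rw [hbs, hbt]; ring, by rw [hbs, hbt]; ring, ?_⟩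
  rw [hs.1.2.1, hs.1.2.2, ht.1.2.1, ht.1.2.2]
  linear_combination ht.2 - hs.2

theorem Good.dir_card {K : Finset (T F)} (hK : Good K) (hc : K.card = Fintype.card F ^ 2)
    {u : T F} (hu : u ∈ K) : (Dir K u.a u.c).card = Fintype.card F := by
  have hn := hK.normal u hu
  have h1 := hK.tangent hc hn.2 (u.a * u.e - u.c * u.d)
  have h2 := hK.dir_le_one u.a u.c (u.a * u.e - u.c * u.d)
  have h3 : 0 < ((Dir K u.a u.c).filter
      fun t => u.a * t.e - u.c * t.d = u.a * u.e - u.c * u.d).card := by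
    apply Finset.card_pos.2
    exact ⟨u, by simp [Dir, hu]⟩
  have h4 : ((Dir K u.a u.c).filter
      fun t => u.a * t.e - u.c * t.d = u.a * u.e - u.c * u.d).card = 1 := by omega
  rw [h4, mul_one] at h1
  exact h1

theorem Good.secant {K : Finset (T F)} (hK : Good K) (hc : K.card = Fintype.card F ^ 2)
    {u v : T F} (hu : u ∈ K) (hv : v ∈ K) (huv : ¬ (v.a = u.a ∧ v.c = u.c)) (l : F) :
    ((Dir K u.a u.c).filter fun t => v.a * t.e - v.c * t.d = l).card +
      ((Dir K v.a v.c).filter fun t => u.a * t.e - u.c * t.d = l).card = 2 := by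
  have hq : 0 < Fintype.card F := Fintype.card_pos
  have hnu := hK.normal u hu
  have hnv := hK.normal v hv
  have h1 := hK.card_plane hc (Pl u.a u.c v.a v.c l)
  rw [card_Pl l hnu.2 hnv.2,
    ← Finset.sum_filter_add_sum_filter_not K (fun t => t.a = u.a ∧ t.c = u.c),
    ← Finset.sum_filter_add_sum_filter_not (K.filter fun t => ¬ (t.a = u.a ∧ t.c = u.c))
      (fun t => t.a = v.a ∧ t.c = v.c)] at h1
  have h3 : ∑ t ∈ K.filter (fun t => t.a = u.a ∧ t.c = u.c),
      (S t ∩ Pl u.a u.c v.a v.c l).card =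
      Fintype.card F * ((Dir K u.a u.c).filter fun t => v.a * t.e - v.c * t.d = l).card := by
    rw [Finset.card_filter, Finset.mul_sum]
    apply Finset.sum_congr rfl
    intro t ht
    rw [Finset.mem_filter] at ht
    rw [inter_par l ht.2.1 ht.2.2]
    split_ifs
    · rw [card_S (hK.normal t ht.1)]; ring
    · simp
  have hB : (K.filter fun t => ¬ (t.a = u.a ∧ t.c = u.c)).filter
      (fun t => t.a = v.a ∧ t.c = v.c) = Dir K v.a v.c := by
    ext t
    simp only [Dir, Finset.mem_filter]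
    constructor
    · rintro ⟨⟨h, _⟩, h'⟩; exact ⟨h, h'⟩
    · rintro ⟨h, h'⟩
      refine ⟨⟨h, ?_⟩, h'⟩
      rintro ⟨h2, h3⟩
      exact huv ⟨h'.1.symm.trans h2, h'.2.symm.trans h3⟩
  have h4 : ∑ t ∈ Dir K v.a v.c, (S t ∩ Pl u.a u.c v.a v.c l).card =
      Fintype.card F * ((Dir K v.a v.c).filter fun t => u.a * t.e - u.c * t.d = l).card := by
    rw [Finset.card_filter, Finset.mul_sum]
    apply Finset.sum_congr rfl
    intro t ht
    rw [Dir, Finset.mem_filter] at ht
    rw [Pl_symm, inter_par l ht.2.1 ht.2.2]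
    split_ifs
    · rw [card_S (hK.normal t ht.1)]; ring
    · simp
  have h5 : ∑ t ∈ (K.filter fun t => ¬ (t.a = u.a ∧ t.c = u.c)).filter
      (fun t => ¬ (t.a = v.a ∧ t.c = v.c)), (S t ∩ Pl u.a u.c v.a v.c l).card =
      ((K.filter fun t => ¬ (t.a = u.a ∧ t.c = u.c)).filter
      (fun t => ¬ (t.a = v.a ∧ t.c = v.c))).card := by
    rw [Finset.card_eq_sum_ones]
    apply Finset.sum_congr rfl
    intro t ht
    rw [Finset.mem_filter, Finset.mem_filter] at ht
    have hn := hK.normal t ht.1.1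
    exact card_inter_one hn l (fun h0 => ht.1.2 (norm_par hnu.2 hn.2 h0))
      (fun h0 => ht.2 (norm_par hnv.2 hn.2 h0))
  have h6 := Finset.card_filter_add_card_filter_not (s := K) (fun t => t.a = u.a ∧ t.c = u.c)
  have h7 := Finset.card_filter_add_card_filter_not
    (s := K.filter fun t => ¬ (t.a = u.a ∧ t.c = u.c)) (fun t => t.a = v.a ∧ t.c = v.c)
  have h8 : (K.filter fun t => t.a = u.a ∧ t.c = u.c).card = Fintype.card F := hK.dir_card hc hu
  have h9 := hK.dir_card hc hv
  rw [hB] at h1 h7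
  rw [h3, h4, h5, ← hc] at h1
  rw [h8] at h6
  rw [h9] at h7
  have h10 : Fintype.card F * ((Dir K u.a u.c).filter fun t => v.a * t.e - v.c * t.d = l).card +
      Fintype.card F * ((Dir K v.a v.c).filter fun t => u.a * t.e - u.c * t.d = l).card =
      Fintype.card F * 2 := by omega
  rw [← mul_add] at h10
  exact Nat.eq_of_mul_eq_mul_left hq h10

/-- For `q` odd there is no extremal configuration. -/
theorem Good.even {K : Finset (T F)} (hK : Good K) (hc : K.card = Fintype.card F ^ 2) :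
    Even (Fintype.card F) := by
  have hq : 1 < Fintype.card F := Fintype.one_lt_card
  have hpos : 0 < K.card := by rw [hc]; positivity
  obtain ⟨u, hu⟩ := Finset.card_pos.1 hpos
  have h1 := hK.dir_card hc hu
  obtain ⟨v, hv, huv⟩ : ∃ v ∈ K, ¬ (v.a = u.a ∧ v.c = u.c) := by
    by_contra hcon
    push Not at hcon
    have : Dir K u.a u.c = K := Finset.filter_true_of_mem fun t ht => hcon t ht
    rw [this, hc] at h1
    nlinarith
  have h2 : ∀ l, Even ((Dir K u.a u.c).filter fun t => v.a * t.e - v.c * t.d = l).card := by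
    intro l
    have h3 := hK.secant hc hu hv huv l
    by_cases h4 : ((Dir K u.a u.c).filter fun t => v.a * t.e - v.c * t.d = l).card = 0
    · rw [h4]; exact Even.zero
    · by_cases h5 : ((Dir K v.a v.c).filter fun t => u.a * t.e - u.c * t.d = l).card = 0
      · rw [h5, add_zero] at h3
        rw [h3]; exact even_two
      · exfalso
        obtain ⟨s, hs⟩ := Finset.card_pos.1 (Nat.pos_of_ne_zero h4)
        obtain ⟨t, ht⟩ := Finset.card_pos.1 (Nat.pos_of_ne_zero h5)
        simp only [Dir, Finset.mem_filter] at hs ht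
        have hne : s ≠ t := by
          rintro rfl
          exact huv ⟨ht.1.2.1.symm.trans hs.1.2.1, ht.1.2.2.symm.trans hs.1.2.2⟩
        apply hK.nc s hs.1.1 t ht.1.1 hne
        have hbs := (hK.normal s hs.1.1).1
        have hbt := (hK.normal t ht.1.1).1
        refine ⟨by rw [hbs, hbt]; ring, by rw [hbs, hbt]; ring, ?_⟩
        rw [hs.1.2.1, hs.1.2.2, ht.1.2.1, ht.1.2.2]
        linear_combination ht.2 - hs.2
  rw [← h1, Finset.card_eq_sum_card_fiberwise (f := fun t => v.a * t.e - v.c * t.d)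
    (t := (univ : Finset F)) (fun _ _ => Finset.mem_coe.2 (Finset.mem_univ _))]
  exact Finset.even_sum _ fun l _ => h2 l

end count

/-! ### Upper bounds -/

section upper

variable [Fintype F] [DecidableEq F]

def nrm (t : T F) : T F :=
  if t.a ≠ 0 then ⟨1, 0, t.c / t.a, t.d / t.a, t.e / t.a⟩ else ⟨0, 0, 1, t.d / t.c, t.e / t.c⟩

theorem nrm_spec {t : T F} (_hb : t.b = 0) (hac : ¬ (t.a = 0 ∧ t.c = 0)) :
    Normal (nrm t) ∧ ∃ k : F, k ≠ 0 ∧ t.a = k * (nrm t).a ∧ t.c = k * (nrm t).c ∧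
      t.d = k * (nrm t).d ∧ t.e = k * (nrm t).e := by
  unfold nrm
  split_ifs with h
  · refine ⟨⟨rfl, Or.inl rfl⟩, t.a, h, ?_, ?_, ?_, ?_⟩ <;> simp only <;> field_simp
  · push Not at h
    have hc : t.c ≠ 0 := fun h' => hac ⟨h, h'⟩
    refine ⟨⟨rfl, Or.inr ⟨rfl, rfl⟩⟩, t.c, hc, ?_, ?_, ?_, ?_⟩
    · simp only [h, mul_zero]
    · simp only [mul_one]
    · simp only; field_simp
    · simp only; field_simp

theorem nrm_C {s t : T F} (hbs : s.b = 0) (hs : ¬ (s.a = 0 ∧ s.c = 0)) (hbt : t.b = 0)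
    (ht : ¬ (t.a = 0 ∧ t.c = 0)) (h : C (nrm s) (nrm t)) : C s t := by
  obtain ⟨_, k, hk, h1, h2, h3, h4⟩ := nrm_spec hbs hs
  obtain ⟨_, m, hm, g1, g2, g3, g4⟩ := nrm_spec hbt ht
  refine ⟨by rw [hbs, hbt]; ring, by rw [hbs, hbt]; ring, ?_⟩
  rw [h1, h2, h3, h4, g1, g2, g3, g4]
  linear_combination (k * m) * h.2.2

theorem Y2_bound (Y : Finset (T F)) (hb : ∀ t ∈ Y, t.b = 0 ∧ ¬ (t.a = 0 ∧ t.c = 0))
    (hnc : ∀ s ∈ Y, ∀ t ∈ Y, s ≠ t → ¬ C s t) :
    Y.card ≤ Fintype.card F ^ 2 ∧ (¬ Even (Fintype.card F) → Y.card < Fintype.card F ^ 2) := by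
  classical
  have hinj : Set.InjOn nrm (Y : Set (T F)) := by
    intro s hs t ht hst
    by_contra hne
    apply hnc s hs t ht hne
    apply nrm_C (hb s hs).1 (hb s hs).2 (hb t ht).1 (hb t ht).2
    rw [hst]; exact C_self _
  have hG : Good (Y.image nrm) := by
    refine ⟨?_, ?_⟩
    · intro t ht
      obtain ⟨s, hs, rfl⟩ := Finset.mem_image.1 ht
      exact (nrm_spec (hb s hs).1 (hb s hs).2).1
    · intro s hs t ht hne hC
      obtain ⟨s, hs', rfl⟩ := Finset.mem_image.1 hs
      obtain ⟨t, ht', rfl⟩ := Finset.mem_image.1 ht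
      exact hnc s hs' t ht' (fun h => hne (by rw [h]))
        (nrm_C (hb s hs').1 (hb s hs').2 (hb t ht').1 (hb t ht').2 hC)
  have hcard : (Y.image nrm).card = Y.card := Finset.card_image_of_injOn hinj
  refine ⟨hcard ▸ hG.card_le, ?_⟩
  intro hodd
  rcases lt_or_eq_of_le (hcard ▸ hG.card_le) with h | h
  · exact h
  · exact absurd (hG.even (hcard.trans h)) hodd

def phi (t : T F) : F × F × F := (t.a / t.b, t.c / t.b, (t.a * t.e - t.c * t.d) / (t.b * t.b))

theorem phi_C {s t : T F} (hs : s.b ≠ 0) (ht : t.b ≠ 0) (h : phi s = phi t) : C s t := by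
  simp only [phi, Prod.mk.injEq] at h
  obtain ⟨h1, h2, h3⟩ := h
  rw [div_eq_div_iff hs ht] at h1 h2
  rw [div_eq_div_iff (mul_ne_zero hs hs) (mul_ne_zero ht ht)] at h3
  refine ⟨by linear_combination h1, by linear_combination -h2, ?_⟩
  apply mul_left_cancel₀ (mul_ne_zero hs ht)
  linear_combination (s.b * t.e + t.b * s.e) * h1 - (t.b * s.d + s.b * t.d) * h2 - h3

theorem target_card : (univ.filter fun p : F × F × F => ¬ (p.1 = 0 ∧ p.2.1 = 0)).card +
    Fintype.card F = Fintype.card F ^ 3 := by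
  have h1 := Finset.card_filter_add_card_filter_not (s := (univ : Finset (F × F × F)))
    (fun p => p.1 = 0 ∧ p.2.1 = 0)
  have h2 : (univ.filter fun p : F × F × F => p.1 = 0 ∧ p.2.1 = 0).card = Fintype.card F := by
    rw [← Finset.card_univ]
    symm
    apply Finset.card_nbij' (fun z => ((0 : F), (0 : F), z)) (fun p => p.2.2)
    · intro z _; simp
    · intro p _; simp
    · intro z _; rfl
    · rintro ⟨x, y, z⟩ hp
      simp only [Finset.coe_filter, Finset.mem_univ, true_and, Set.mem_ofPred_eq] at hp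
      simp only [Prod.mk.injEq, and_true]
      exact ⟨hp.1.symm, hp.2.symm⟩
  rw [h2, Finset.card_univ, Fintype.card_prod, Fintype.card_prod] at h1
  have : Fintype.card F * (Fintype.card F * Fintype.card F) = Fintype.card F ^ 3 := by ring
  omega

theorem Y1_bound (Y : Finset (T F)) (hb : ∀ t ∈ Y, t.b ≠ 0 ∧ ¬ (t.a = 0 ∧ t.c = 0))
    (hnc : ∀ s ∈ Y, ∀ t ∈ Y, s ≠ t → ¬ C s t) :
    Y.card + Fintype.card F ≤ Fintype.card F ^ 3 ∧
    (∀ z : T F, z.a = 0 → z.b = 0 → z.c = 0 → ¬ (z.d = 0 ∧ z.e = 0) → (∀ t ∈ Y, ¬ C z t) →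
      Y.card + 1 + Fintype.card F ≤ Fintype.card F ^ 3) := by
  have hmaps : Set.MapsTo phi (Y : Set (T F))
      ((univ.filter fun p : F × F × F => ¬ (p.1 = 0 ∧ p.2.1 = 0) : Finset (F × F × F)) :
        Set (F × F × F)) := by
    intro t ht
    obtain ⟨h1, h2⟩ := hb t ht
    simp only [phi, Finset.coe_filter, Finset.mem_univ, true_and, Set.mem_ofPred_eq,
      div_eq_zero_iff, h1, or_false]
    exact h2
  have hinj : Set.InjOn phi (Y : Set (T F)) := by
    intro s hs t ht hst
    by_contra hne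
    exact hnc s hs t ht hne (phi_C (hb s hs).1 (hb t ht).1 hst)
  have htc := target_card (F := F)
  refine ⟨?_, ?_⟩
  · have := Finset.card_le_card_of_injOn phi hmaps hinj
    omega
  · intro z h1 h2 h3 h4 hz
    have hmem : (z.d, z.e, (0 : F)) ∈
        univ.filter fun p : F × F × F => ¬ (p.1 = 0 ∧ p.2.1 = 0) := by
      simp only [Finset.mem_filter, Finset.mem_univ, true_and]; exact h4
    have hmaps' : Set.MapsTo phi (Y : Set (T F))
        (((univ.filter fun p : F × F × F => ¬ (p.1 = 0 ∧ p.2.1 = 0)).erase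
          (z.d, z.e, (0 : F)) : Finset (F × F × F)) : Set (F × F × F)) := by
      intro t ht
      refine Finset.mem_coe.2 (Finset.mem_erase.2 ⟨?_, hmaps ht⟩)
      intro he
      simp only [phi, Prod.mk.injEq] at he
      obtain ⟨e1, e2, _⟩ := he
      rw [div_eq_iff (hb t ht).1] at e1 e2
      apply hz t ht
      refine ⟨by rw [h1, h2]; ring, by rw [h2, h3]; ring, ?_⟩
      rw [h1, h3, e1, e2]; ring
    have := Finset.card_le_card_of_injOn phi hmaps' hinj
    have h5 := Finset.card_erase_add_one hmem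
    omega

theorem upper (Y : Finset (T F)) (hnc : ∀ s ∈ Y, ∀ t ∈ Y, s ≠ t → ¬ C s t) :
    Y.card + Fintype.card F ≤ Fintype.card F ^ 3 + Fintype.card F ^ 2 + 1 ∧
    (¬ Even (Fintype.card F) →
      Y.card + Fintype.card F ≤ Fintype.card F ^ 3 + Fintype.card F ^ 2) := by
  have hq : 1 < Fintype.card F := Fintype.one_lt_card
  have hq2 : Fintype.card F ≤ Fintype.card F ^ 2 := by nlinarith
  have hq3 : 1 ≤ Fintype.card F ^ 3 := Nat.one_le_pow _ _ (by omega)
  -- split
  have hsub : ∀ p : T F → Prop, ∀ [DecidablePred p],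
      ∀ s ∈ Y.filter p, ∀ t ∈ Y.filter p, s ≠ t → ¬ C s t := by
    intro p _ s hs t ht
    exact hnc s (Finset.mem_filter.1 hs).1 t (Finset.mem_filter.1 ht).1
  have c1 := Finset.card_filter_add_card_filter_not (s := Y) (fun t => t.b = 0)
  have c2 := Finset.card_filter_add_card_filter_not (s := Y.filter fun t => t.b = 0)
    (fun t => t.a = 0 ∧ t.c = 0)
  have c3 := Finset.card_filter_add_card_filter_not (s := Y.filter fun t => ¬ t.b = 0)
    (fun t => t.a = 0 ∧ t.c = 0)
  rw [Finset.filter_filter, Finset.filter_filter] at c2 c3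
  have hY2 := Y2_bound (Y.filter fun t => t.b = 0 ∧ ¬ (t.a = 0 ∧ t.c = 0))
    (fun t ht => (Finset.mem_filter.1 ht).2) (hsub _)
  have hY1 := Y1_bound (Y.filter fun t => ¬ t.b = 0 ∧ ¬ (t.a = 0 ∧ t.c = 0))
    (fun t ht => (Finset.mem_filter.1 ht).2) (hsub _)
  have hY0 : (Y.filter fun t => ¬ t.b = 0 ∧ (t.a = 0 ∧ t.c = 0)).card ≤ 1 := by
    rw [Finset.card_le_one]
    intro s hs t ht
    by_contra hne
    refine hsub _ s hs t ht hne ?_
    rw [Finset.mem_filter] at hs ht
    refine ⟨by rw [hs.2.2.1, ht.2.2.1]; ring, by rw [hs.2.2.2, ht.2.2.2]; ring, ?_⟩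
    rw [hs.2.2.1, hs.2.2.2, ht.2.2.1, ht.2.2.2]; ring
  by_cases hY3 : (Y.filter fun t => t.b = 0 ∧ (t.a = 0 ∧ t.c = 0)) = ∅
  · rw [hY3, Finset.card_empty] at c2
    refine ⟨?_, ?_⟩
    · have := hY1.1; have := hY2.1; omega
    · intro hodd
      have := hY1.1; have := hY2.2 hodd; omega
  · obtain ⟨z, hz⟩ := Finset.nonempty_iff_ne_empty.2 hY3
    rw [Finset.mem_filter] at hz
    obtain ⟨hzY, hzb, hza, hzc⟩ := hz
    by_cases hde : z.d = 0 ∧ z.e = 0
    · have hone : Y.card ≤ 1 := by
        rw [Finset.card_le_one]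
        have hall : ∀ t ∈ Y, z = t := by
          intro t ht
          by_contra hne
          apply hnc z hzY t ht hne
          refine ⟨by rw [hza, hzb]; ring, by rw [hzb, hzc]; ring, ?_⟩
          rw [hza, hzc, hde.1, hde.2]; ring
        intro s hs t ht
        rw [← hall s hs, ← hall t ht]
      constructor
      · omega
      · intro _; omega
    · have hY3' : (Y.filter fun t => t.b = 0 ∧ (t.a = 0 ∧ t.c = 0)).card ≤ 1 := by
        rw [Finset.card_le_one]
        intro s hs t ht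
        by_contra hne
        refine hsub _ s hs t ht hne ?_
        rw [Finset.mem_filter] at hs ht
        refine ⟨by rw [hs.2.2.1, ht.2.2.1]; ring, by rw [hs.2.2.2, ht.2.2.2]; ring, ?_⟩
        rw [hs.2.2.1, hs.2.2.2, ht.2.2.1, ht.2.2.2]; ring
      have hY0' : (Y.filter fun t => ¬ t.b = 0 ∧ (t.a = 0 ∧ t.c = 0)).card = 0 := by
        rw [Finset.card_eq_zero, Finset.eq_empty_iff_forall_notMem]
        intro t ht
        rw [Finset.mem_filter] at ht
        refine hnc z hzY t ht.1 ?_ ?_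
        · rintro rfl; exact ht.2.1 hzb
        · refine ⟨by rw [hza, ht.2.2.1]; ring, by rw [hzb, hzc]; ring, ?_⟩
          rw [hza, hzc, ht.2.2.1, ht.2.2.2]; ring
      have hY1' := hY1.2 z hza hzb hzc hde (by
        intro t ht
        rw [Finset.mem_filter] at ht
        apply hnc z hzY t ht.1
        rintro rfl; exact ht.2.1 hzb)
      have := hY2.1
      constructor
      · omega
      · intro _; omega

end upper

/-! ### The lower bound for `q` even -/

section lower

variable [Fintype F] [DecidableEq F]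

theorem exists_lam (h2 : (2 : F) = 0) : ∃ l : F, ∀ u v : F, u * u + u * v + l * (v * v) = 0 →
    u = 0 ∧ v = 0 := by
  have hns : ¬ Function.Surjective (fun x : F => x * x + x) := by
    intro hs
    have hi : Function.Injective (fun x : F => x * x + x) := Finite.injective_iff_surjective.2 hs
    have h01 : (0 : F) = 1 := hi (by
      show (0 : F) * 0 + 0 = 1 * 1 + 1
      linear_combination -h2)
    exact zero_ne_one h01
  unfold Function.Surjective at hns
  push Not at hns
  obtain ⟨l, hl⟩ := hns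
  refine ⟨l, ?_⟩
  intro u v huv
  by_cases hv : v = 0
  · subst hv
    refine ⟨?_, rfl⟩
    have : u * u = 0 := by linear_combination huv
    exact mul_self_eq_zero.1 this
  · exfalso
    apply hl (u / v)
    have : (u / v * (u / v) + u / v) - l = (u * u + u * v + l * (v * v)) / (v * v) - 2 * l := by
      field_simp; ring
    rw [huv, h2] at this
    simp only [zero_div, zero_mul, sub_zero] at this
    exact sub_eq_zero.1 this

/-- Index set of the extremal configuration. -/
abbrev Idx (F : Type*) [Field F] := {p : F × F × F // ¬ (p.1 = 0 ∧ p.2.1 = 0)} ⊕ ((F × F) ⊕ Unit)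

def conf (l : F) : Idx F → T F
  | .inl p => if p.1.1 = 0 then ⟨p.1.1, 1, p.1.2.1, -(p.1.2.2 / p.1.2.1), 0⟩
      else ⟨p.1.1, 1, p.1.2.1, 0, p.1.2.2 / p.1.1⟩
  | .inr (.inl p) => ⟨1, 0, p.1, p.2, p.1 * p.1 + p.1 * p.2 + l * (p.2 * p.2)⟩
  | .inr (.inr _) => ⟨0, 1, 0, 0, 0⟩

theorem conf_inl (l : F) (p : {p : F × F × F // ¬ (p.1 = 0 ∧ p.2.1 = 0)}) :
    (conf l (.inl p)).b = 1 ∧ (conf l (.inl p)).a = p.1.1 ∧ (conf l (.inl p)).c = p.1.2.1 ∧
    (conf l (.inl p)).a * (conf l (.inl p)).e - (conf l (.inl p)).c * (conf l (.inl p)).d =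
      p.1.2.2 := by
  obtain ⟨⟨x, y, z⟩, hp⟩ := p
  simp only at hp
  unfold conf
  simp only
  split_ifs with h
  · have hy : y ≠ 0 := fun h' => hp ⟨h, h'⟩
    refine ⟨rfl, rfl, rfl, ?_⟩
    simp only; field_simp; ring
  · refine ⟨rfl, rfl, rfl, ?_⟩
    simp only; field_simp; ring

theorem conf_nc (h2 : (2 : F) = 0) (l : F)
    (hl : ∀ u v : F, u * u + u * v + l * (v * v) = 0 → u = 0 ∧ v = 0) :
    ∀ i j : Idx F, C (conf l i) (conf l j) → i = j := by
  have key : ∀ i j : Idx F, C (conf l i) (conf l j) →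
      (∀ p, i = .inl p → ∃ q, j = .inl q) := by
    rintro i j hC p rfl
    rcases j with q | q | q
    · exact ⟨q, rfl⟩
    · exfalso
      obtain ⟨hb, ha, hc, _⟩ := conf_inl l p
      obtain ⟨e1, e2, e3⟩ := hC
      rw [hb] at e1 e2
      simp only [conf] at e1 e2
      apply one_ne_zero (α := F)
      linear_combination -e1
    · exfalso
      obtain ⟨hb, ha, hc, _⟩ := conf_inl l p
      obtain ⟨e1, e2, e3⟩ := hC
      rw [hb, ha] at e1
      rw [hb, hc] at e2
      simp only [conf] at e1 e2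
      exact p.2 ⟨by linear_combination e1, by linear_combination -e2⟩
  intro i j hC
  rcases i with p | p | p
  · obtain ⟨q, rfl⟩ := key _ j hC p rfl
    obtain ⟨hb, ha, hc, hd⟩ := conf_inl l p
    obtain ⟨gb, ga, gc, gd⟩ := conf_inl l q
    obtain ⟨e1, e2, e3⟩ := hC
    rw [hb, gb, ha, ga] at e1
    rw [hb, gb, hc, gc] at e2
    have e1' : p.1.1 = q.1.1 := by linear_combination e1
    have e2' : p.1.2.1 = q.1.2.1 := by linear_combination -e2
    rw [ha, hc] at hd
    rw [ga, gc] at gd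
    rw [ha, ga, hc, gc] at e3
    have e3' : p.1.2.2 = q.1.2.2 := by
      rw [← hd, ← gd, ← e1', ← e2']
      rw [← e1', ← e2'] at e3
      linear_combination -e3
    congr 1
    exact Subtype.ext (Prod.ext e1' (Prod.ext e2' e3'))
  · rcases j with q | q | q
    · obtain ⟨r, hr⟩ := key _ _ (C_symm hC) q rfl
      exact absurd hr (by simp)
    · obtain ⟨_, _, e3⟩ := hC
      simp only [conf] at e3
      have h3 := hl (p.1 - q.1) (p.2 - q.2) (by
        linear_combination e3 + (p.1 * p.1 - p.1 * q.1 + p.1 * p.2 - q.1 * p.2 +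
          l * (p.2 * p.2 - p.2 * q.2)) * h2)
      congr 2
      exact Prod.ext (sub_eq_zero.1 h3.1) (sub_eq_zero.1 h3.2)
    · exfalso
      obtain ⟨e1, _, _⟩ := hC
      simp only [conf] at e1
      apply one_ne_zero (α := F)
      linear_combination e1
  · rcases j with q | q | q
    · obtain ⟨r, hr⟩ := key _ _ (C_symm hC) q rfl
      exact absurd hr (by simp)
    · exfalso
      obtain ⟨e1, _, _⟩ := hC
      simp only [conf] at e1
      apply one_ne_zero (α := F)
      linear_combination -e1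
    · rfl

end lower

/-! ### Conclusions -/

theorem nc_upper (F : Type*) [Field F] [Fintype F] :
    ncNumber (UU4 F) + Fintype.card F ≤ Fintype.card F ^ 3 + Fintype.card F ^ 2 + 1 ∧
    (¬ Even (Fintype.card F) →
      ncNumber (UU4 F) + Fintype.card F ≤ Fintype.card F ^ 3 + Fintype.card F ^ 2) := by
  classical
  have hX : ∀ X : Finset (UU4 F), (∀ x ∈ X, ∀ y ∈ X, x ≠ y → x * y ≠ y * x) →
      ∃ Y : Finset (T F), Y.card = X.card ∧ ∀ s ∈ Y, ∀ t ∈ Y, s ≠ t → ¬ C s t := by
    intro X hX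
    refine ⟨X.image toT, ?_, ?_⟩
    · apply Finset.card_image_of_injOn
      intro x hx y hy hxy
      by_contra hne
      apply hX x hx y hy hne
      rw [comm_iff, hxy]; exact C_self _
    · intro s hs t ht hne hC
      obtain ⟨x, hx, rfl⟩ := Finset.mem_image.1 hs
      obtain ⟨y, hy, rfl⟩ := Finset.mem_image.1 ht
      exact hX x hx y hy (fun h => hne (by rw [h])) ((comm_iff x y).2 hC)
  have hq : 1 < Fintype.card F := Fintype.one_lt_card
  have hq2 : Fintype.card F ≤ Fintype.card F ^ 2 := by nlinarith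
  constructor
  · have : ncNumber (UU4 F) ≤
        Fintype.card F ^ 3 + Fintype.card F ^ 2 + 1 - Fintype.card F := by
      apply ncNumber_le
      intro X h
      obtain ⟨Y, hc, hY⟩ := hX X h
      have := (upper Y hY).1
      omega
    omega
  · intro hodd
    have : ncNumber (UU4 F) ≤ Fintype.card F ^ 3 + Fintype.card F ^ 2 - Fintype.card F := by
      apply ncNumber_le
      intro X h
      obtain ⟨Y, hc, hY⟩ := hX X h
      have := (upper Y hY).2 hodd
      omega
    omega

theorem nc_lower (F : Type*) [Field F] [Fintype F] (h2 : (2 : F) = 0) :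
    Fintype.card F ^ 3 + Fintype.card F ^ 2 + 1 ≤ ncNumber (UU4 F) + Fintype.card F := by
  classical
  obtain ⟨l, hl⟩ := exists_lam h2
  have hnc := conf_nc h2 l hl
  have hinj : Function.Injective (fun i : Idx F => ofT (conf l i)) := by
    intro i j hij
    apply hnc
    have : toT (ofT (conf l i)) = toT (ofT (conf l j)) := congrArg toT hij
    rw [toT_ofT, toT_ofT] at this
    rw [this]; exact C_self _
  have h := le_ncNumber ((univ : Finset (Idx F)).image fun i => ofT (conf l i)) (by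
    intro x hx y hy hne hcomm
    obtain ⟨i, _, rfl⟩ := Finset.mem_image.1 hx
    obtain ⟨j, _, rfl⟩ := Finset.mem_image.1 hy
    rw [comm_iff, toT_ofT, toT_ofT] at hcomm
    exact hne (by rw [hnc i j hcomm]))
  rw [Finset.card_image_of_injective _ hinj, Finset.card_univ, Fintype.card_sum,
    Fintype.card_sum, Fintype.card_prod, Fintype.card_unit, Fintype.card_subtype] at h
  have h3 := target_card (F := F)
  have h4 : Fintype.card F * Fintype.card F = Fintype.card F ^ 2 := by ring
  omega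

/-- The number is not a polynomial in `q` for large `q`. -/
theorem result :
    (∀ (F : Type) [Field F] [Fintype F], (2 : F) = 0 →
      ncNumber (UU4 F) + Fintype.card F = Fintype.card F ^ 3 + Fintype.card F ^ 2 + 1) ∧
    (∀ (F : Type) [Field F] [Fintype F], (2 : F) ≠ 0 →
      ncNumber (UU4 F) + Fintype.card F ≤ Fintype.card F ^ 3 + Fintype.card F ^ 2) ∧
    ¬ ∃ (P : Polynomial ℚ) (q0 : ℕ), ∀ q : ℕ, q0 ≤ q → IsPrimePow q →
      ∀ (F : Type) [Field F] [Fintype F], Fintype.card F = q →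
        (ncNumber (UU4 F) : ℚ) = P.eval (q : ℚ) := by
  have hE : ∀ (F : Type) [Field F] [Fintype F], (2 : F) = 0 →
      ncNumber (UU4 F) + Fintype.card F = Fintype.card F ^ 3 + Fintype.card F ^ 2 + 1 := by
    intro F _ _ h2
    exact le_antisymm (nc_upper F).1 (nc_lower F h2)
  have hO : ∀ (F : Type) [Field F] [Fintype F], (2 : F) ≠ 0 →
      ncNumber (UU4 F) + Fintype.card F ≤ Fintype.card F ^ 3 + Fintype.card F ^ 2 := by
    intro F _ _ h2
    apply (nc_upper F).2
    intro hev
    apply h2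
    obtain ⟨p, hp⟩ := CharP.exists F
    obtain ⟨n, hpr, hn⟩ := FiniteField.card F p
    rw [hn] at hev
    have hp2 : p = 2 := by
      rw [Nat.even_pow] at hev
      exact (Nat.Prime.even_iff hpr).1 hev.1
    subst hp2
    exact_mod_cast CharP.cast_eq_zero F 2
  refine ⟨hE, hO, ?_⟩
  rintro ⟨P, q0, hP⟩
  have hP2 : ∀ n : ℕ, q0 ≤ n → n ≠ 0 → P.eval ((2 ^ n : ℕ) : ℚ) =
      (Polynomial.X ^ 3 + Polynomial.X ^ 2 - Polynomial.X + 1 : Polynomial ℚ).eval
        ((2 ^ n : ℕ) : ℚ) := by
    intro n hn hn0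
    have hfin : Fintype (GaloisField 2 n) := Fintype.ofFinite _
    have hcard : Fintype.card (GaloisField 2 n) = 2 ^ n := by
      rw [← Nat.card_eq_fintype_card]; exact GaloisField.card 2 n hn0
    have hle : q0 ≤ 2 ^ n := hn.trans (Nat.lt_two_pow_self).le
    have h1 := hP (2 ^ n) hle ((Nat.prime_two.isPrimePow).pow hn0) (GaloisField 2 n) hcard
    have h2 : (2 : GaloisField 2 n) = 0 := by exact_mod_cast CharP.cast_eq_zero (GaloisField 2 n) 2
    have h3 := hE (GaloisField 2 n) h2
    rw [hcard] at h3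
    rw [← h1]
    have h4 : (ncNumber (UU4 (GaloisField 2 n)) : ℚ) + ((2 ^ n : ℕ) : ℚ) =
        ((2 ^ n : ℕ) : ℚ) ^ 3 + ((2 ^ n : ℕ) : ℚ) ^ 2 + 1 := by exact_mod_cast h3
    simp only [Polynomial.eval_add, Polynomial.eval_sub, Polynomial.eval_pow, Polynomial.eval_X,
      Polynomial.eval_one]
    linarith
  have hPoly : P = Polynomial.X ^ 3 + Polynomial.X ^ 2 - Polynomial.X + 1 := by
    apply Polynomial.eq_of_infinite_eval_eq
    have hinf : (Set.range fun n : ℕ => ((2 ^ (n + q0 + 1) : ℕ) : ℚ)).Infinite := by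
      apply Set.infinite_range_of_injective
      intro a b hab
      have hab' : ((2 ^ (a + q0 + 1) : ℕ) : ℚ) = ((2 ^ (b + q0 + 1) : ℕ) : ℚ) := hab
      have h1 : 2 ^ (a + q0 + 1) = 2 ^ (b + q0 + 1) := Nat.cast_injective hab'
      have h2 := Nat.pow_right_injective (le_refl 2) h1
      omega
    apply hinf.mono
    rintro _ ⟨n, rfl⟩
    exact hP2 (n + q0 + 1) (by omega) (by omega)
  have hp3 : Fact (Nat.Prime 3) := ⟨Nat.prime_three⟩
  set n := q0 + 1 with hn
  have hfin : Fintype (GaloisField 3 n) := Fintype.ofFinite _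
  have hcard : Fintype.card (GaloisField 3 n) = 3 ^ n := by
    rw [← Nat.card_eq_fintype_card]; exact GaloisField.card 3 n (by omega)
  have hle : q0 ≤ 3 ^ n := by
    have : n < 3 ^ n := Nat.lt_pow_self (by norm_num)
    omega
  have h1 := hP (3 ^ n) hle ((Nat.prime_three.isPrimePow).pow (by omega)) (GaloisField 3 n) hcard
  have h2 : (2 : GaloisField 3 n) ≠ 0 := by
    intro h
    have h3 : (3 : GaloisField 3 n) = 0 := by
      exact_mod_cast CharP.cast_eq_zero (GaloisField 3 n) 3
    apply one_ne_zero (α := GaloisField 3 n)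
    linear_combination h3 - h
  have h3 := hO (GaloisField 3 n) h2
  rw [hcard] at h3
  rw [hPoly] at h1
  simp only [Polynomial.eval_add, Polynomial.eval_sub, Polynomial.eval_pow, Polynomial.eval_X,
      Polynomial.eval_one] at h1
  have h4 : (ncNumber (UU4 (GaloisField 3 n)) : ℚ) + ((3 ^ n : ℕ) : ℚ) ≤
        ((3 ^ n : ℕ) : ℚ) ^ 3 + ((3 ^ n : ℕ) : ℚ) ^ 2 := by exact_mod_cast h3
  linarith

end Pool.Agent.Results.MP_671173_al.NotPolynomial
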